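import Pool.Agent.Helper57_C2.Stmts
import Pool.Agent.Helper77_K9.INT
import Pool.Agent.Helper27_K9.PRT
import Pool.Agent.Helper20_K9.Adp

/-!
# Squad C2, row INT2: the numbers `A_χ(p)` are in `ℤ[ζ]`, for `u` of order `ℓ ^ n`
-/

open scoped BigOperators

set_option linter.unusedSectionVars false

noncomputable section

namespace Pool.Agent.PP.C2.H48

open Pool.Agent.Helper51_AWC Pool.Agent.Helper79_WRA Pool.Agent.PP Pool.Agent.PP.KF
open Pool.Agent.PP.K9 Pool.Agent.PP.K9.H77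

section main

variable {ℓ n : ℕ} {G H : Type} [Group G] [Finite G] [Group H] [Finite H] {u : G} {π : Cu u →* H}

theorem orderOf_uC2 (h : Qn (ℓ ^ n) u π) : orderOf (uC u) = ℓ ^ n := by
  rw [← Subgroup.orderOf_coe]
  exact h.ord

theorem pi_pow_uC2 (h : Qn (ℓ ^ n) u π) (j : ℕ) (s : Cu u) : π (uC u ^ j * s) = π s := by
  have h1 : π (uC u) = 1 := (h.ker _).2 (Subgroup.mem_zpowers u)
  rw [map_mul, map_pow, h1, one_pow, one_mul]

/-- the decomposition of the elements with regular image -/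
theorem exists_decomp2 (h : Qn (ℓ ^ n) u π) {N : ℕ}
    (hN : ∀ g : Cu u, Reg ℓ (g ^ N) ∧ ∃ n : ℕ, ((g ^ N)⁻¹ * g) ^ ℓ ^ n = 1) {c : Cu u}
    (hc : Reg ℓ (π c)) : ∃ j < ℓ ^ n, c = uC u ^ j * c ^ N := by
  classical
  obtain ⟨h1, k, h2⟩ := hN c
  have h3 : π ((c ^ N)⁻¹ * c) = 1 := by
    rw [← orderOf_eq_one_iff]
    have e1 : orderOf (π ((c ^ N)⁻¹ * c)) ∣ ℓ ^ k :=
      orderOf_dvd_of_pow_eq_one (by rw [← map_pow, h2, map_one])
    have e2 : orderOf (π ((c ^ N)⁻¹ * c)) ∣ orderOf (π c) := by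
      apply orderOf_dvd_of_pow_eq_one
      rw [← map_pow]
      have e3 : ((c ^ N)⁻¹ * c) ^ orderOf (π c) = (c ^ orderOf (π c)) ^ (1 - N : ℤ) := by
        have e4 : (c ^ N)⁻¹ * c = c ^ (1 - N : ℤ) := by
          rw [sub_eq_neg_add, zpow_add, zpow_neg, zpow_natCast, zpow_one]
        rw [e4, ← zpow_natCast, ← zpow_natCast, ← zpow_mul, ← zpow_mul, mul_comm]
      rw [e3, map_zpow, map_pow, pow_orderOf_eq_one, one_zpow]
    have e3 : Nat.Coprime (orderOf (π c)) (ℓ ^ k) := Nat.Coprime.pow_right k hc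
    exact Nat.dvd_one.1 (e3 ▸ Nat.dvd_gcd e2 e1)
  have h4 := (h.ker _).1 h3
  rw [mem_zpowers_iff_mem_range_orderOf, h.ord, Finset.mem_image] at h4
  obtain ⟨j, hj, he⟩ := h4
  refine ⟨j, Finset.mem_range.1 hj, ?_⟩
  have h5 : (c ^ N)⁻¹ * c = uC u ^ j := Subtype.ext he.symm
  have h6 : uC u ^ j * c ^ N = c ^ N * uC u ^ j :=
    ((show Commute (uC u) (c ^ N) from uC_comm u _).pow_left j).eq
  rw [h6, ← h5, mul_inv_cancel_left]

theorem card_Cu2 (h : Qn (ℓ ^ n) u π) : Nat.card (Cu u) = ℓ ^ n * Nat.card H := by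
  have h1 : Nat.card π.ker = ℓ ^ n := by
    have h2 : π.ker = Subgroup.zpowers (uC u) := by
      ext c
      rw [MonoidHom.mem_ker, h.ker]
      constructor
      · rintro ⟨k, hk⟩
        exact ⟨k, Subtype.ext hk⟩
      · rintro ⟨k, hk⟩
        exact ⟨k, congrArg Subtype.val hk⟩
    rw [h2, Nat.card_zpowers, orderOf_uC2 h]
  have h3 := π.ker.card_mul_index
  rw [h1, Subgroup.index_ker, MonoidHom.range_eq_top.2 h.sur, Subgroup.card_top] at h3
  exact h3.symm

open Classical in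
/-- the sum over the centraliser -/
theorem sum_eq2 [Fintype (Cu u)] (h : Qn (ℓ ^ n) u π) {N : ℕ}
    (hN : ∀ g : Cu u, Reg ℓ (g ^ N) ∧ ∃ n : ℕ, ((g ^ N)⁻¹ * g) ^ ℓ ^ n = 1)
    (hN' : ∀ x y : Cu u, Commute x y → Reg ℓ x → (∃ n : ℕ, y ^ ℓ ^ n = 1) → (x * y) ^ N = x)
    {p : H → ℂ} (hp : Rc ℓ p) (κ : Cu u → ℂ) :
    ∑ c : Cu u, κ (c ^ N) * starRingEnd ℂ (p (π c)) =
      (ℓ ^ n : ℕ) * ∑ s ∈ Finset.univ.filter (fun s : Cu u => Reg ℓ s),
        κ s * starRingEnd ℂ (p (π s)) := by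
  have hinv : ∀ (j : ℕ) (s : Cu u), Reg ℓ s → (uC u ^ j * s) ^ N = s := by
    intro j s hs
    have hc : Commute s (uC u ^ j) := ((show Commute (uC u) s from uC_comm u s).pow_left j).symm
    rw [← hc.eq]
    refine hN' s _ hc hs ⟨n, ?_⟩
    rw [← pow_mul, mul_comm, pow_mul, ← orderOf_uC2 h, pow_orderOf_eq_one, one_pow]
  have h1 : ∑ c : Cu u, κ (c ^ N) * starRingEnd ℂ (p (π c)) =
      ∑ c ∈ Finset.univ.filter (fun c : Cu u => Reg ℓ (π c)),
        κ (c ^ N) * starRingEnd ℂ (p (π c)) := by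
    rw [Finset.sum_filter]
    refine Finset.sum_congr rfl fun c _ => ?_
    split_ifs with hc
    · rfl
    · rw [hp.sg _ hc, map_zero, mul_zero]
  have h2 : ∑ c ∈ Finset.univ.filter (fun c : Cu u => Reg ℓ (π c)),
        κ (c ^ N) * starRingEnd ℂ (p (π c)) =
      ∑ x ∈ Finset.range (ℓ ^ n) ×ˢ Finset.univ.filter (fun s : Cu u => Reg ℓ s),
        κ x.2 * starRingEnd ℂ (p (π x.2)) := by
    symm
    refine Finset.sum_bij (fun x _ => uC u ^ x.1 * x.2) ?_ ?_ ?_ ?_
    · rintro ⟨j, s⟩ hx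
      simp only [Finset.mem_product, Finset.mem_filter, Finset.mem_univ, true_and] at hx ⊢
      rw [pi_pow_uC2 h]
      exact Nat.Coprime.coprime_dvd_left (orderOf_map_dvd π s) hx.2
    · rintro ⟨j, s⟩ hx ⟨j', s'⟩ hx' he
      simp only [Finset.mem_product, Finset.mem_filter, Finset.mem_univ, true_and,
        Finset.mem_range] at hx hx' he
      have e1 : s = s' := by
        have := congrArg (· ^ N) he
        simp only [hinv j s hx.2, hinv j' s' hx'.2] at this
        exact this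
      rw [e1] at he
      have e2 := mul_right_cancel he
      have e3 := pow_injOn_Iio_orderOf (x := uC u)
        (show j ∈ Set.Iio (orderOf (uC u)) by rw [orderOf_uC2 h]; exact hx.1)
        (show j' ∈ Set.Iio (orderOf (uC u)) by rw [orderOf_uC2 h]; exact hx'.1) e2
      rw [e1, e3]
    · intro c hc
      simp only [Finset.mem_filter, Finset.mem_univ, true_and] at hc
      obtain ⟨j, hj, he⟩ := exists_decomp2 h hN hc
      refine ⟨(j, c ^ N), ?_, he.symm⟩
      simp only [Finset.mem_product, Finset.mem_filter, Finset.mem_univ, true_and,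
        Finset.mem_range]
      exact ⟨hj, (hN c).1⟩
    · rintro ⟨j, s⟩ hx
      simp only [Finset.mem_product, Finset.mem_filter, Finset.mem_univ, true_and] at hx
      rw [hinv j s hx.2, pi_pow_uC2 h]
  rw [h1, h2, Finset.sum_product]
  show ∑ _x ∈ Finset.range (ℓ ^ n), ∑ s ∈ Finset.univ.filter (fun s : Cu u => Reg ℓ s),
        κ s * starRingEnd ℂ (p (π s)) = _
  rw [Finset.sum_const, Finset.card_range, nsmul_eq_mul]

end main

theorem int2_ (ada : AdaStmt) (prt : PrtStmt) : Int2Stmt := by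
  classical
  intro ℓ hℓ n G H _ _ _ _ u π h p hp hpc χ hχ ζ hζ
  have := Fintype.ofFinite (Cu u)
  obtain ⟨N, hN, hN'⟩ := prt ℓ (Cu u)
  have hpos : 0 < ℓ ^ n := pow_pos hℓ.out.pos n
  have hH : (Nat.card H : ℂ) ≠ 0 := by exact_mod_cast Nat.card_pos.ne'
  have hℓ0 : ((ℓ ^ n : ℕ) : ℂ) ≠ 0 := by exact_mod_cast hpos.ne'
  -- the statement for virtual characters of the centraliser
  have key : ∀ f ∈ ZI (Cu u), ∃ m : ℕ → ℤ, ∀ j : ℕ,
      (Nat.card H : ℂ)⁻¹ * ∑ s ∈ Finset.univ.filter (fun s : Cu u => Reg ℓ s),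
        f (uC u ^ j * s) * starRingEnd ℂ (p (π s)) =
        ∑ i ∈ Finset.range (ℓ ^ n), (m i : ℂ) * ζ ^ (i * j) := by
    intro f hf
    unfold ZI at hf
    induction hf using AddSubgroup.closure_induction with
    | mem κ hκ =>
      obtain ⟨i, hi, hk⟩ := cent_pow hκ (uC_comm u) hpos
        (by rw [← orderOf_uC2 h]; exact pow_orderOf_eq_one _) hζ
      obtain ⟨m, hm⟩ := ada (Cu u) N κ (AddSubgroup.subset_closure hκ) _ (zi_infl h.sur hp)
      have e1 : (Nat.card H : ℂ)⁻¹ * ∑ s ∈ Finset.univ.filter (fun s : Cu u => Reg ℓ s),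
          κ s * starRingEnd ℂ (p (π s)) = m := by
        rw [← hm, ipn, finsum_eq_sum_of_fintype, sum_eq2 h hN hN' hpc κ, card_Cu2 h,
          Nat.cast_mul]
        field_simp
      refine ⟨fun k => if k = i then m else 0, fun j => ?_⟩
      rw [Finset.sum_eq_single i]
      · show _ = ((if i = i then m else 0 : ℤ) : ℂ) * ζ ^ (i * j)
        rw [if_pos rfl, ← e1]
        simp only [hk, Finset.mul_sum, Finset.sum_mul]
        refine Finset.sum_congr rfl fun s _ => ?_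
        ring
      · intro k _ hki
        show ((if k = i then m else 0 : ℤ) : ℂ) * ζ ^ (k * j) = 0
        rw [if_neg hki, Int.cast_zero, zero_mul]
      · intro hni
        exact absurd (Finset.mem_range.2 hi) hni
    | zero =>
      refine ⟨0, fun j => ?_⟩
      simp
    | add f g _ _ hf hg =>
      obtain ⟨m, hm⟩ := hf
      obtain ⟨m', hm'⟩ := hg
      refine ⟨m + m', fun j => ?_⟩
      simp only [Pi.add_apply, add_mul, Finset.sum_add_distrib, mul_add, Int.cast_add]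
      rw [hm, hm']
    | neg f _ hf =>
      obtain ⟨m, hm⟩ := hf
      refine ⟨-m, fun j => ?_⟩
      simp only [Pi.neg_apply, neg_mul, Finset.sum_neg_distrib, mul_neg, Int.cast_neg]
      rw [hm]
  obtain ⟨m, hm⟩ := key _ (zi_res (Cu u) hχ)
  refine ⟨m, fun j => ?_⟩
  rw [← hm j, Av, finsum_eq_sum_of_fintype, Finset.sum_filter]
  refine congrArg ((Nat.card H : ℂ)⁻¹ * ·) (Finset.sum_congr rfl fun s _ => ?_)
  rw [finsum_eq_if]
  rfl

/-- INT2 -/
theorem int2 : Int2Stmt := int2_ (K9.H25.ada K9.H20.adp) K9.H27.prt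

end Pool.Agent.PP.C2.H48
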